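import Pool.Agent.U36.TS.Stm

/-!
# Project TS, package PP: wild inertia is a pro-`p`-group
-/

set_option autoImplicit false

namespace Pool.Agent.U624.TS

open Pool.Agent.U36.TS

theorem wild_pow {K B : Type} [Field K] [Field B] [Algebra K B] (V : ValuationSubring B)
    (g : B ≃ₐ[K] B) (h : Wild V g) (n : ℕ) : Wild V (g ^ n) := by
  induction n with
  | zero =>
    intro x hx
    rw [ValuationSubring.mem_nonunits_iff]
    simp [hx]
  | succ n ih =>
    intro x hx
    have hgx : (g ^ n) x ≠ 0 := (map_ne_zero_iff (g ^ n) (g ^ n).injective).2 hx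
    have h1 := h _ hgx
    have h2 := ih x hx
    rw [ValuationSubring.mem_nonunits_iff] at *
    have e : (g ^ (n+1)) x / x - 1 = (g ((g^n) x) / (g^n) x - 1) * ((g^n) x / x - 1)
        + (g ((g^n) x) / (g^n) x - 1) + ((g^n) x / x - 1) := by
      rw [pow_succ', AlgEquiv.mul_apply]
      field_simp
      ring
    rw [e]
    refine lt_of_le_of_lt (Valuation.map_add _ _ _) (max_lt ?_ h2)
    refine lt_of_le_of_lt (Valuation.map_add _ _ _) (max_lt ?_ h1)
    rw [map_mul]
    exact mul_lt_one_of_lt_of_le h1 h2.le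

theorem nat_nonunit {B : Type} [Field B] (V : ValuationSubring B) (p m : ℕ) (h : Nat.Coprime p m)
    (hp : V.valuation (p : B) < 1) : ¬ V.valuation (m : B) < 1 := by
  intro hm
  have hb : (1 : B) = (p : B) * ((Nat.gcdA p m : ℤ) : B) + (m : B) * ((Nat.gcdB p m : ℤ) : B) := by
    have := Nat.gcd_eq_gcd_ab p m
    rw [Nat.Coprime] at h
    rw [h] at this
    have h2 := congrArg (fun z : ℤ => (z : B)) this
    push_cast at h2
    simpa using h2
  have h1 : V.valuation (1 : B) < 1 := by
    rw [hb]
    refine lt_of_le_of_lt (Valuation.map_add _ _ _) (max_lt ?_ ?_)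
    · rw [map_mul]
      exact mul_lt_one_of_lt_of_le hp ((V.valuation_le_one_iff _).2 (intCast_mem V _))
    · rw [map_mul]
      exact mul_lt_one_of_lt_of_le hm ((V.valuation_le_one_iff _).2 (intCast_mem V _))
  rw [map_one] at h1
  exact lt_irrefl _ h1

theorem key {K B : Type} [Field K] [Field B] [CharZero B] [Algebra K B] (V : ValuationSubring B)
    (p m : ℕ) (hpm : Nat.Coprime p m) (hm : m ≠ 0) (hp : (p : B) ∈ V.nonunits)
    (r : B ≃ₐ[K] B) (h : Wild V r) (x : B) (hx : (r ^ m) x = x) : r x = x := by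
  have hm' : (m : B) ≠ 0 := by exact_mod_cast hm
  set e : B := ∑ k ∈ Finset.range m, (r ^ k) x with he
  have hre : r e = e := by
    rw [he, map_sum]
    have h1 : ∀ k ∈ Finset.range m, r ((r ^ k) x) = (r ^ (k+1)) x := by
      intro k _
      rw [pow_succ', AlgEquiv.mul_apply]
    rw [Finset.sum_congr rfl h1]
    have h2 := Finset.sum_range_succ (fun k => (r ^ k) x) m
    have h3 := Finset.sum_range_succ' (fun k => (r ^ k) x) m
    rw [h2] at h3
    simp only [pow_zero, AlgEquiv.one_apply] at h3
    rw [hx] at h3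
    exact (add_right_cancel h3).symm
  have hrke : ∀ k, (r ^ k) e = e := by
    intro k
    induction k with
    | zero => simp
    | succ k ih => rw [pow_succ', AlgEquiv.mul_apply, ih, hre]
  set y : B := x - e / m with hy
  have hsum : ∑ k ∈ Finset.range m, (r ^ k) y = 0 := by
    have h1 : ∀ k ∈ Finset.range m, (r ^ k) y = (r ^ k) x - e / m := by
      intro k _
      rw [hy, map_sub, map_div₀, hrke, map_natCast]
    rw [Finset.sum_congr rfl h1, Finset.sum_sub_distrib, ← he]
    simp only [Finset.sum_const, Finset.card_range, nsmul_eq_mul]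
    field_simp
    ring
  have hy0 : y = 0 := by
    by_contra hne
    have h1 : ∑ k ∈ Finset.range m, ((r ^ k) y / y - 1) = - (m : B) := by
      rw [Finset.sum_sub_distrib, ← Finset.sum_div, hsum]
      simp
    have h2 : V.valuation (∑ k ∈ Finset.range m, ((r ^ k) y / y - 1)) < 1 := by
      refine Valuation.map_sum_lt _ one_ne_zero ?_
      intro k _
      exact (ValuationSubring.mem_nonunits_iff V).1 (wild_pow V r h k y hne)
    rw [h1, Valuation.map_neg] at h2
    exact nat_nonunit V p m hpm ((ValuationSubring.mem_nonunits_iff V).1 hp) h2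
  have hxe : x = e / m := by
    have : x - e / m = 0 := hy0
    exact sub_eq_zero.1 this
  rw [hxe, map_div₀, hre, map_natCast]

theorem t_PP : S_PP := by
  intro K B _ _ _ _ _ V p hp hpV g hg L hfin hnorm
  have : FiniteDimensional K L := hfin
  have : Normal K L := hnorm
  have : CharZero B := charZero_of_injective_algebraMap (algebraMap K B).injective
  let gL : L ≃ₐ[K] L := g.restrictNormal L
  have hgL : ∀ x : L, ((gL x : L) : B) = g (x : B) := fun x => g.restrictNormal_commutes L x
  have hgLk : ∀ (k : ℕ) (x : L), (((gL ^ k) x : L) : B) = (g ^ k) (x : B) := by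
    intro k
    induction k with
    | zero => intro x; simp
    | succ k ih =>
      intro x
      rw [pow_succ', AlgEquiv.mul_apply, hgL, ih, pow_succ', AlgEquiv.mul_apply]
  have hn : orderOf gL ≠ 0 := (orderOf_pos gL).ne'
  obtain ⟨i, m, hm, hnm⟩ := Nat.exists_eq_pow_mul_and_not_dvd hn p hp.ne_one
  refine ⟨i, fun x hx => ?_⟩
  have hm0 : m ≠ 0 := by
    rintro rfl
    exact hm (dvd_zero _)
  refine key V p m ((Nat.Prime.coprime_iff_not_dvd hp).2 hm) hm0 hpV (g ^ p ^ i) (wild_pow V g hg _) x ?_
  rw [← pow_mul, ← hnm]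
  have h1 := hgLk (orderOf gL) ⟨x, hx⟩
  rw [pow_orderOf_eq_one] at h1
  exact h1.symm

end Pool.Agent.U624.TS
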